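import Pool.Agent.Work.MP_db9399_da.Frame2
import Pool.Agent.Work.MP_db9399_da_helper93.EMB

/-!
# MP_db9399, DENSE-ALL, phase 2: EMBI, the regular supergraph is an induced one (helper49)

The construction and the proof are those of helper93's `stmt_EMB`.
-/

set_option autoImplicit false

namespace Pool.Agent.Work.MP_db9399_da.helper49

open Finset Classical
open Pool.Agent.Work.MP_db9399_all (nb)
open Pool.Agent.Work.MP_db9399_da.helper93

universe u

theorem stmt_EMBI : Stmt_EMBI.{u} := by
  intro V _ G d hd hG hV
  obtain ⟨m, hm⟩ : ∃ m, m = Fintype.card V + 1 := ⟨_, rfl⟩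
  have : NeZero m := ⟨by omega⟩
  have hmc : Fintype.card (ZMod m) = m := ZMod.card m
  obtain ⟨N, q, hN, hL⟩ := robin (U := ZMod m) (fun v => d - (nb G v).card)
    (fun v => by rw [hmc]; have := Nat.sub_le d (nb G v).card; omega) (univ : Finset V)
  set L : ZMod m → ℕ := fun u => (univ.filter (fun v => u ∈ N v)).card with hLd
  have hsum : ∑ u, L u = ∑ v, (d - (nb G v).card) := by
    have h1 : ∀ v, d - (nb G v).card = ∑ u, if u ∈ N v then 1 else 0 := by
      intro v
      rw [← hN v (mem_univ _), ← card_filter]
      congr 1
      ext u
      simp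
    simp only [h1, hLd, card_filter]
    rw [sum_comm]
  have hq : q + 1 ≤ d := by
    by_contra hcon
    have h1 : ∑ _u : ZMod m, d ≤ ∑ u, L u := by
      apply sum_le_sum
      intro u _
      have := hL u
      change L u = q ∨ L u = q + 1 at this
      omega
    have h2 : ∑ v, (d - (nb G v).card) ≤ ∑ _v : V, d := sum_le_sum (fun v _ => Nat.sub_le _ _)
    rw [hsum] at h1
    have h3 := h1.trans h2
    simp only [sum_const, card_univ, hmc, smul_eq_mul] at h3
    rw [hm, add_mul, one_mul] at h3
    omega
  obtain ⟨R, hR1, hR2⟩ := circ m (d - q - 1) (by omega) (univ.filter (fun u => L u = q))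
  have ha : ∀ u, L u + (d - q - 1 + if u ∈ univ.filter (fun u => L u = q) then 1 else 0) = d := by
    intro u
    have := hL u
    change L u = q ∨ L u = q + 1 at this
    split_ifs with h
    · simp only [mem_filter, mem_univ, true_and] at h
      omega
    · simp only [mem_filter, mem_univ, true_and] at h
      omega
  refine ⟨Bool × (V ⊕ ZMod m), inferInstance, helper93.sup G N R, fun v => (false, Sum.inl v), ?_, ?_, ?_, ?_⟩
  · intro v w h
    simpa using h
  · intro v w
    exact ⟨fun h => h.2, fun h => ⟨rfl, h⟩⟩
  · rintro ⟨b, v | u⟩
    · have e : (nb (helper93.sup G N R) (b, Sum.inl v)).card = (nb G v).card + (N v).card := by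
        rw [card_nb, Fintype.sum_prod_type]
        simp only [Fintype.sum_sum_type, Fintype.sum_bool]
        have : (N v).card = ∑ u, if u ∈ N v then 1 else 0 := by
          rw [← card_filter]
          congr 1
          ext u
          simp
        rw [this, card_nb]
        cases b <;> simp [helper93.sup]
      rw [e, hN v (mem_univ _)]
      have := hG v
      omega
    · have e : (nb (helper93.sup G N R) (b, Sum.inr u)).card = d := by
        rw [card_nb, Fintype.sum_prod_type]
        simp only [Fintype.sum_sum_type, Fintype.sum_bool]
        cases b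
        · rw [← ha u, ← hR1 u, hLd]
          simp only [card_filter]
          simp [helper93.sup, add_comm]
        · rw [← ha u, ← hR2 u, hLd]
          simp only [card_filter]
          simp [helper93.sup, add_comm]
      exact e
  · simp only [Fintype.card_prod, Fintype.card_bool, Fintype.card_sum, hmc]
    omega

end Pool.Agent.Work.MP_db9399_da.helper49
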