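import Pool.Agent.Work.MP_db9399_da_helper72.Rnd

/-!
# Block RP: rounds in both parts, from RB
-/

set_option autoImplicit false

namespace Pool.Agent.Work.MP_db9399_da_helper49

open Finset Classical
open Pool.Agent.Work.MP_db9399_da_helper72

universe u

section
variable {V : Type u} (pt : V → Bool) (i : Bool)

/-- the part as a type -/
abbrev Vi : Type u := {v : V // pt v = i}

/-- the embedding of the part -/
abbrev em : Vi pt i ↪ V := Function.Embedding.subtype _

/-- the graph on the part -/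
abbrev gi (G : SimpleGraph V) : SimpleGraph (Vi pt i) := G.comap (fun v => v.1)

variable [Fintype V]

lemma mem_pr (v : V) : v ∈ pr pt i ↔ pt v = i := by
  unfold pr
  rw [mem_filter]
  simp

lemma ee_gi (G : SimpleGraph V) (A A' : Finset (Vi pt i)) :
    ee (gi pt i G) A A' = ee G (A.map (em pt i)) (A'.map (em pt i)) := by
  unfold ee
  refine card_bij (fun p _ => (p.1.1, p.2.1)) ?_ ?_ ?_
  · intro p hp
    rw [mem_filter, mem_product] at hp
    rw [mem_filter, mem_product]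
    exact ⟨⟨mem_map_of_mem (em pt i) hp.1.1, mem_map_of_mem (em pt i) hp.1.2⟩, hp.2⟩
  · rintro ⟨a, b⟩ _ ⟨c, d⟩ _ h
    simp only [Prod.mk.injEq] at h ⊢
    exact ⟨Subtype.ext h.1, Subtype.ext h.2⟩
  · rintro ⟨a, b⟩ h
    rw [mem_filter, mem_product, mem_map, mem_map] at h
    obtain ⟨⟨⟨x, hx, hxa⟩, ⟨y, hy, hyb⟩⟩, hab⟩ := h
    refine ⟨(x, y), ?_, ?_⟩
    · rw [mem_filter, mem_product]
      refine ⟨⟨hx, hy⟩, ?_⟩
      have h1 : x.1 = a := hxa
      have h2 : y.1 = b := hyb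
      show G.Adj x.1 y.1
      rw [h1, h2]
      exact hab
    · have h1 : x.1 = a := hxa
      have h2 : y.1 = b := hyb
      show (x.1, y.1) = (a, b)
      rw [h1, h2]

lemma dg_gi (G : SimpleGraph V) (hG : ∀ v w, G.Adj v w → pt v = pt w) (v : Vi pt i) :
    dg (gi pt i G) v univ = dg G v.1 univ := by
  unfold dg
  refine card_bij (fun p _ => p.1) ?_ ?_ ?_
  · intro p hp
    rw [mem_filter] at hp ⊢
    exact ⟨mem_univ _, hp.2⟩
  · intro a _ b _ h
    exact Subtype.ext h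
  · intro b hb
    rw [mem_filter] at hb
    refine ⟨⟨b, by rw [← hG _ _ hb.2]; exact v.2⟩, ?_, rfl⟩
    rw [mem_filter]
    exact ⟨mem_univ _, hb.2⟩

lemma card_Vi : Fintype.card (Vi pt i) = (pr pt i).card := by
  rw [← Finset.card_univ]
  refine card_bij (fun p _ => p.1) ?_ ?_ ?_
  · intro p _
    exact (mem_pr pt i _).2 p.2
  · intro a _ b _ h
    exact Subtype.ext h
  · intro b hb
    exact ⟨⟨b, (mem_pr pt i _).1 hb⟩, mem_univ _, rfl⟩

lemma map_compl (S S' : Finset (Vi pt i)) (hS : ∀ v, v ∈ S' ↔ v ∉ S) :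
    S'.map (em pt i) = pr pt i \ S.map (em pt i) := by
  ext v
  rw [mem_map, mem_sdiff, mem_map, mem_pr]
  constructor
  · rintro ⟨x, hx, rfl⟩
    rw [hS] at hx
    refine ⟨x.2, ?_⟩
    rintro ⟨y, hy, hyx⟩
    exact hx (by rwa [← (em pt i).injective hyx])
  · rintro ⟨h1, h2⟩
    refine ⟨⟨v, h1⟩, ?_, rfl⟩
    rw [hS]
    exact fun h => h2 ⟨_, h, rfl⟩

lemma cut_aux (H : SimpleGraph V) (ρ : ℝ) (hcut : ∀ S ⊆ pr pt i,
    ρ * S.card * ((pr pt i \ S).card : ℝ) ≤ (ee H S (pr pt i \ S) : ℝ)) (S S' : Finset (Vi pt i))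
    (hS : ∀ v, v ∈ S' ↔ v ∉ S) : ρ * S.card * (S'.card : ℝ) ≤ (ee (gi pt i H) S S' : ℝ) := by
  have hsub : S.map (em pt i) ⊆ pr pt i := by
    intro v hv
    rw [mem_map] at hv
    obtain ⟨x, _, rfl⟩ := hv
    exact (mem_pr pt i _).2 x.2
  have h2 := hcut _ hsub
  rw [← map_compl pt i S S' hS, card_map, card_map] at h2
  rw [ee_gi]
  exact h2

lemma map_sub (S : Finset (Vi pt i)) : S.map (em pt i) ⊆ pr pt i := by
  intro v hv
  rw [mem_map] at hv
  obtain ⟨x, _, rfl⟩ := hv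
  exact (mem_pr pt i _).2 x.2

/-- holes -/
noncomputable def Di (D : Finset V) : Finset (Vi pt i) := univ.filter fun v => v.1 ∈ D

lemma mem_Di (D : Finset V) (v : Vi pt i) : v ∈ Di pt i D ↔ v.1 ∈ D := by
  unfold Di
  rw [mem_filter]
  simp

lemma card_Di (D : Finset V) : (Di pt i D).card = (D ∩ pr pt i).card := by
  refine card_bij (fun p _ => p.1) ?_ ?_ ?_
  · intro p hp
    rw [mem_inter, mem_pr]
    exact ⟨(mem_Di pt i D p).1 hp, p.2⟩
  · intro a _ b _ h
    exact Subtype.ext h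
  · intro b hb
    rw [mem_inter, mem_pr] at hb
    exact ⟨⟨b, hb.2⟩, (mem_Di pt i D _).2 hb.1, rfl⟩

omit [Fintype V] in
lemma eq_of_mem {α : Type*} (S S' : Finset α) (h : ∀ a, a ∈ S ↔ a ∈ S') : S = S' := Finset.ext h

lemma card_side (sd : V → Bool) (c : Bool) (D : Finset V) :
    ((univ.filter fun v : Vi pt i => sd v.1 = c) \ Di pt i D).card = (qt sd pt c i \ D).card := by
  refine card_bij (fun p _ => p.1) ?_ ?_ ?_
  · intro p hp
    rw [mem_sdiff, mem_filter, mem_Di] at hp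
    unfold qt
    rw [mem_sdiff, mem_filter]
    exact ⟨⟨mem_univ _, hp.1.2, p.2⟩, hp.2⟩
  · intro a _ b _ h
    exact Subtype.ext h
  · intro b hb
    unfold qt at hb
    rw [mem_sdiff, mem_filter] at hb
    refine ⟨⟨b, hb.1.2.2⟩, ?_, rfl⟩
    rw [mem_sdiff, mem_filter, mem_Di]
    exact ⟨⟨mem_univ _, hb.1.2.1⟩, hb.2⟩

end

theorem stmt_RP (hRB : Stmt_RB.{u}) : Stmt_RP.{u} := by
  intro C ρ r ν hC hρ hr hr1 hν
  obtain ⟨ε', m0', hε', hB⟩ := hRB C ρ r ν hC hρ hr hr1 hν
  refine ⟨ε' / 16, 4 * m0', by positivity, ?_⟩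
  intro V _ H sd pt D0 hm hC0 hadj hpt hdeg hcut G1 Con B D w e hCon hG1 hA hd hB1 hB2 hg1 hg2
    he1 he2 hD1 hD2 hpar
  have hHpt : ∀ v w, H.Adj v w → pt v = pt w := fun v w h => (hadj v w h).2
  have hG1pt : ∀ v w, G1.Adj v w → pt v = pt w := fun v w h => hHpt v w (hG1 v w h).1
  have hCpt : ∀ v w, Con.Adj v w → pt v = pt w := fun v w h => hHpt v w (hCon v w h)
  -- sizes
  have hcard : ∀ i, (Fintype.card V : ℝ) ≤ 4 * Fintype.card (Vi pt i) := by
    intro i
    rw [card_Vi]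
    exact_mod_cast hpt i
  have hcard' : ∀ i, (Fintype.card (Vi pt i) : ℝ) ≤ Fintype.card V := by
    intro i
    exact_mod_cast Fintype.card_subtype_le _
  have hε1 : ∀ i, ε' / 16 * Fintype.card V ≤ ε' * Fintype.card (Vi pt i) := by
    intro i
    have h1 := hcard i
    have h2 : (0 : ℝ) ≤ Fintype.card (Vi pt i) := Nat.cast_nonneg _
    calc ε' / 16 * Fintype.card V ≤ ε' / 16 * (4 * Fintype.card (Vi pt i)) :=
          mul_le_mul_of_nonneg_left h1 (by positivity)
      _ ≤ ε' * Fintype.card (Vi pt i) := by nlinarith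
  have hε2 : ∀ i, ε' / 16 * (Fintype.card V : ℝ) ^ 2 ≤ ε' * (Fintype.card (Vi pt i) : ℝ) ^ 2 := by
    intro i
    have h1 := hcard i
    have h2 : (0 : ℝ) ≤ Fintype.card V := Nat.cast_nonneg _
    calc ε' / 16 * (Fintype.card V : ℝ) ^ 2 ≤ ε' / 16 * (4 * Fintype.card (Vi pt i)) ^ 2 :=
          mul_le_mul_of_nonneg_left (pow_le_pow_left₀ h2 h1 2) (by positivity)
      _ = ε' * (Fintype.card (Vi pt i) : ℝ) ^ 2 := by ring
  have key : ∀ i, ∃ (R : SimpleGraph (Vi pt i)) (t : Vi pt i → Vi pt i → ℕ)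
      (Bf : Vi pt i → Finset ℕ), (∀ v b, b ∈ Bf v ↔ b ∈ B i ∧ v.1 ∉ D b) ∧
      Col (gi pt i G1 ⊔ gi pt i Con) R Bf t := by
    intro i
    have h1 := hB (Vi pt i) (gi pt i H) (fun v => sd v.1) D0
      (by
        have := hpt i
        rw [← card_Vi] at this
        omega)
      ((hcard' i).trans hC0)
      (fun v w h => (hadj _ _ h).1)
      (fun v => by
        rw [dg_gi pt i H hHpt]
        exact (hdeg v.1).trans (hε1 i))
      (fun S => cut_aux pt i H ρ (hcut i) S _ (fun v => @Finset.mem_compl _ _ (_) (_) _))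
    obtain ⟨R, t, hRt⟩ := h1 (gi pt i G1) (gi pt i Con) (B i) (fun b => Di pt i (D b)) (w i) (e i)
      (fun x y h => hCon _ _ h) (fun x y h => hG1 _ _ h)
      (by
        intro A A'
        rw [ee_gi, ee_gi]
        exact (hA _ _).trans (hε2 i))
      (by
        intro v
        rw [dg_gi pt i Con hCpt, dg_gi pt i H hHpt]
        exact (hd v.1).trans (hε1 i))
      ((mul_le_mul_of_nonneg_left (hcard' i) hν.le).trans (hB1 i))
      (by
        have h2 := hB2 i
        have h3 := hpt i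
        rw [← card_Vi] at h3
        omega)
      (by
        intro v
        rw [dg_gi pt i G1 hG1pt]
        have := hg1 v.1
        rwa [v.2] at this)
      (by
        intro v
        rw [dg_gi pt i G1 hG1pt]
        have := hg2 v.1
        rwa [v.2] at this)
      (by
        refine (he1 i).trans ?_
        exact mul_le_mul_of_nonneg_right (by linarith) (by positivity))
      ((he2 i).trans (hε1 i))
      (by
        intro b hb
        rw [card_Di]
        exact (hD1 i b hb).trans (hε1 i))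
      (by
        intro v
        have h2 := hD2 v.1
        rw [v.2] at h2
        refine le_trans (le_of_eq ?_) (h2.trans (hε1 i))
        refine congrArg (fun S : Finset ℕ => (S.card : ℝ)) (eq_of_mem _ _ fun b => ?_)
        exact (@Finset.mem_filter _ _ (_) _ _).trans ((and_congr_right fun _ =>
          mem_Di pt i (D b) v).trans (Finset.mem_filter (p := fun b => v.1 ∈ D b)).symm))
      (by
        intro b hb
        have h2 : ∀ c, ∀ S : Finset (Vi pt i), (∀ v, v ∈ S ↔ sd v.1 = c ∧ v.1 ∉ D b) →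
            S.card = (qt sd pt c i \ D b).card := by
          intro c S hS
          rw [← card_side]
          refine congrArg Finset.card (eq_of_mem _ _ fun v => ?_)
          rw [hS, mem_sdiff, mem_filter, mem_Di]
          simp
        refine (h2 false _ fun v => ?_).trans ((hpar i b hb).trans (h2 true _ fun v => ?_).symm)
        · refine (@Finset.mem_sdiff _ (_) _ _ _).trans ?_
          rw [mem_filter, mem_Di]
          simp
        · refine (@Finset.mem_sdiff _ (_) _ _ _).trans ?_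
          rw [mem_filter, mem_Di]
          simp)
    refine ⟨R, t, _, ?_, hRt⟩
    intro v b
    exact (@Finset.mem_filter _ _ (_) _ _).trans
      (and_congr_right fun _ => not_congr (mem_Di pt i (D b) v))
  choose R T Bf hBf hRT using key
  -- glue
  let R' : SimpleGraph V :=
    { Adj := fun v w => ∃ (i : Bool) (h1 : pt v = i) (h2 : pt w = i), (R i).Adj ⟨v, h1⟩ ⟨w, h2⟩
      symm := ⟨fun v w ⟨i, h1, h2, h⟩ => ⟨i, h2, h1, h.symm⟩⟩
      loopless := ⟨fun v ⟨i, h1, h2, h⟩ => (R i).loopless.irrefl _ h⟩ }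
  have hR' : ∀ v w i (h1 : pt v = i) (h2 : pt w = i),
      R'.Adj v w ↔ (R i).Adj ⟨v, h1⟩ ⟨w, h2⟩ := by
    intro v w i h1 h2
    constructor
    · rintro ⟨j, h1', h2', h⟩
      obtain rfl : j = i := h1'.symm.trans h1
      exact h
    · intro h
      exact ⟨i, h1, h2, h⟩
  let t : V → V → ℕ := fun v w => if h : pt w = pt v then T (pt v) ⟨v, rfl⟩ ⟨w, h⟩ else 0
  have ht : ∀ v w i (h1 : pt v = i) (h2 : pt w = i), t v w = T i ⟨v, h1⟩ ⟨w, h2⟩ := by
    intro v w i h1 h2
    subst h1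
    show (if h : pt w = pt v then T (pt v) ⟨v, rfl⟩ ⟨w, h⟩ else 0) = _
    rw [dif_pos h2]
  have hsup : ∀ v w, (G1 ⊔ Con).Adj v w → pt w = pt v := by
    intro v w h
    rw [SimpleGraph.sup_adj] at h
    rcases h with h | h
    · exact (hG1pt _ _ h).symm
    · exact (hCpt _ _ h).symm
  refine ⟨R', t, ⟨?_, ?_, ?_, ?_, ?_⟩⟩
  · rintro v w ⟨i, h1, h2, h⟩
    have h3 := (hRT i).le _ _ h
    rw [SimpleGraph.sup_adj] at h3 ⊢
    exact h3
  · intro v w
    by_cases h : pt w = pt v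
    · rw [ht v w (pt v) rfl h, ht w v (pt v) h rfl]
      exact (hRT (pt v)).sym _ _
    · show (if h : pt w = pt v then T (pt v) ⟨v, rfl⟩ ⟨w, h⟩ else 0) =
        (if h : pt v = pt w then T (pt w) ⟨w, rfl⟩ ⟨v, h⟩ else 0)
      rw [dif_neg h, dif_neg (fun h' => h h'.symm)]
  · intro v w h1 h2
    have h3 := hsup v w h1
    rw [ht v w (pt v) rfl h3]
    rw [hR' v w (pt v) rfl h3] at h2
    have h4 := (hRT (pt v)).col ⟨v, rfl⟩ ⟨w, h3⟩ (by
      rw [SimpleGraph.sup_adj] at h1 ⊢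
      exact h1) h2
    rw [hBf] at h4
    rw [mem_filter]
    exact h4
  · intro v w w' h1 h2 h1' h2' h
    have h3 := hsup v w h1
    have h3' := hsup v w' h1'
    rw [ht v w (pt v) rfl h3, ht v w' (pt v) rfl h3'] at h
    rw [hR' v w (pt v) rfl h3] at h2
    rw [hR' v w' (pt v) rfl h3'] at h2'
    have h4 := (hRT (pt v)).inj ⟨v, rfl⟩ ⟨w, h3⟩ ⟨w', h3'⟩ (by
      rw [SimpleGraph.sup_adj] at h1 ⊢
      exact h1) h2 (by
      rw [SimpleGraph.sup_adj] at h1' ⊢
      exact h1') h2' h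
    exact congrArg Subtype.val h4
  · intro v b hb
    rw [mem_filter] at hb
    obtain ⟨w, hw1, hw2, hw3⟩ := (hRT (pt v)).ful ⟨v, rfl⟩ b (by
      rw [hBf]
      exact hb)
    refine ⟨w.1, ?_, ?_, ?_⟩
    · rw [SimpleGraph.sup_adj] at hw1 ⊢
      exact hw1
    · rw [hR' v w.1 (pt v) rfl w.2]
      exact hw2
    · rw [ht v w.1 (pt v) rfl w.2]
      exact hw3

end Pool.Agent.Work.MP_db9399_da_helper49
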