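import Pool.Agent.Work.MP_db9399_da_helper72.Stm4

/-!
# Block MIS2: misses of stage B with partners
-/

set_option autoImplicit false

namespace Pool.Agent.Work.MP_db9399_da_helper49

open Finset Classical
open Pool.Agent.Work.MP_db9399_da_helper72
open Pool.Agent.Work.MP_db9399_all (nb)
open Pool.Agent.Work.MP_db9399_lt (us)
open Pool.Agent.Work.MP_db9399_da

universe u

/-! ## Generic lemmas -/

/-- sequential choice with a symmetric conflict relation -/
theorem greedy {ι α : Type*} [Nonempty α] (S : Finset ι) (ok : ι → α → Prop)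
    (cf : ι → α → ι → α → Prop) (hs : ∀ t c t' c', cf t c t' c' → cf t' c' t c)
    (h : ∀ t ∈ S, ∀ S' ⊆ S, t ∉ S' → ∀ g : ι → α, (∀ t' ∈ S', ok t' (g t')) →
      ∃ c, ok t c ∧ ∀ t' ∈ S', ¬ cf t c t' (g t')) :
    ∃ g : ι → α, (∀ t ∈ S, ok t (g t)) ∧ ∀ t ∈ S, ∀ t' ∈ S, t ≠ t' → ¬ cf t (g t) t' (g t') := by
  have key : ∀ S' : Finset ι, S' ⊆ S → ∃ g : ι → α, (∀ t ∈ S', ok t (g t)) ∧
      ∀ t ∈ S', ∀ t' ∈ S', t ≠ t' → ¬ cf t (g t) t' (g t') := by
    intro S'
    induction S' using Finset.induction_on with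
    | empty =>
      intro _
      exact ⟨fun _ => Classical.arbitrary α, by simp, by simp⟩
    | insert a S' ha ih =>
      intro hS
      obtain ⟨g, hg1, hg2⟩ := ih ((subset_insert _ _).trans hS)
      obtain ⟨c, hc1, hc2⟩ := h a (hS (mem_insert_self _ _)) S' ((subset_insert _ _).trans hS) ha g hg1
      refine ⟨Function.update g a c, ?_, ?_⟩
      · intro t ht
        rw [mem_insert] at ht
        by_cases hta : t = a
        · subst hta
          rw [Function.update_self]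
          exact hc1
        · rw [Function.update_of_ne hta]
          exact hg1 t (ht.resolve_left hta)
      · intro t ht t' ht' htt
        rw [mem_insert] at ht ht'
        by_cases hta : t = a
        · subst hta
          have h1 : t' ≠ t := fun h => htt h.symm
          rw [Function.update_self, Function.update_of_ne h1]
          exact hc2 t' (ht'.resolve_left h1)
        · by_cases hta' : t' = a
          · subst hta'
            rw [Function.update_self, Function.update_of_ne hta]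
            exact fun h => hc2 t (ht.resolve_left hta) (hs _ _ _ _ h)
          · rw [Function.update_of_ne hta, Function.update_of_ne hta']
            exact hg2 t (ht.resolve_left hta) t' (ht'.resolve_left hta') htt
  exact key S Subset.rfl

/-- sequential injective choice -/
theorem greedy' {ι α : Type*} [Nonempty α] (S : Finset ι) (ok : ι → α → Prop)
    (h : ∀ t ∈ S, ∀ S' ⊆ S, t ∉ S' → ∀ g : ι → α, (∀ t' ∈ S', ok t' (g t')) →
      ∃ c, ok t c ∧ ∀ t' ∈ S', c ≠ g t') :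
    ∃ g : ι → α, (∀ t ∈ S, ok t (g t)) ∧ ∀ t ∈ S, ∀ t' ∈ S, t ≠ t' → g t ≠ g t' :=
  greedy S ok (fun _ c _ c' => c = c') (fun _ _ _ _ h => h.symm) h

/-- an injection from the smaller set -/
theorem exists_inj {α β : Type*} [Nonempty β] (s : Finset α) (t : Finset β) (h : s.card ≤ t.card) :
    ∃ f : α → β, (∀ a ∈ s, f a ∈ t) ∧ ∀ a ∈ s, ∀ b ∈ s, f a = f b → a = b := by
  obtain ⟨e⟩ := Function.Embedding.nonempty_of_card_le (α := s) (β := t) (by simpa using h)
  refine ⟨fun a => if h : a ∈ s then (e ⟨a, h⟩).1 else Classical.arbitrary β, ?_, ?_⟩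
  · intro a ha
    simp only [dif_pos ha]
    exact (e ⟨a, ha⟩).2
  · intro a ha b hb hab
    simp only [dif_pos ha, dif_pos hb] at hab
    have := e.injective (Subtype.ext hab)
    exact congrArg Subtype.val this

/-- choose an element outside few sets -/
theorem exists_out {α : Type*} (C B : Finset α) (h : B.card < C.card) : ∃ c ∈ C, c ∉ B :=
  exists_mem_notMem_of_card_lt_card h

theorem card_biUnion_le' {α β : Type*} (s : Finset α) (f : α → Finset β) (n : ℝ) (m : ℝ)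
    (hm : (s.card : ℝ) ≤ m) (hn0 : 0 ≤ n) (h : ∀ a ∈ s, ((f a).card : ℝ) ≤ n) :
    ((s.biUnion f).card : ℝ) ≤ m * n := by
  have h1 : (((s.biUnion f).card : ℕ) : ℝ) ≤ ((∑ a ∈ s, (f a).card : ℕ) : ℝ) := by
    exact_mod_cast card_biUnion_le
  refine h1.trans ?_
  push_cast
  calc ∑ a ∈ s, ((f a).card : ℝ) ≤ ∑ _a ∈ s, n := sum_le_sum h
    _ = s.card * n := by rw [sum_const, nsmul_eq_mul]
    _ ≤ m * n := mul_le_mul_of_nonneg_right hm hn0

/-! ## Events -/

/-- events: part, colour, number -/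
abbrev Ev : Type := Bool × ℕ × ℕ

/-- `r i b` events for every colour `b ∈ S i` -/
noncomputable def evs (S : Bool → Finset ℕ) (r : Bool → ℕ → ℤ) : Finset Ev :=
  ((univ : Finset Bool) ×ˢ ((S false ∪ S true) ×ˢ range 11)).filter
    fun e => e.2.1 ∈ S e.1 ∧ (e.2.2 : ℤ) < r e.1 e.2.1

theorem mem_evs {S : Bool → Finset ℕ} {r : Bool → ℕ → ℤ} (hr : ∀ i, ∀ b ∈ S i, r i b ≤ 10) (e : Ev) :
    e ∈ evs S r ↔ e.2.1 ∈ S e.1 ∧ (e.2.2 : ℤ) < r e.1 e.2.1 := by
  unfold evs
  rw [mem_filter, mem_product, mem_product, mem_union, mem_range]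
  refine ⟨fun h => h.2, fun h => ⟨⟨mem_univ _, ?_, ?_⟩, h⟩⟩
  · rcases e with ⟨i, b, k⟩
    cases i
    · exact Or.inl h.1
    · exact Or.inr h.1
  · have := hr _ _ h.1
    omega

theorem card_evs_col {S : Bool → Finset ℕ} {r : Bool → ℕ → ℤ} (hr : ∀ i, ∀ b ∈ S i, r i b ≤ 10)
    (i : Bool) (b : ℕ) (hb : b ∈ S i) :
    ((evs S r).filter fun e => e.1 = i ∧ e.2.1 = b).card = (r i b).toNat := by
  rw [← card_range (r i b).toNat]
  refine card_bij (fun e _ => e.2.2) ?_ ?_ ?_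
  · rintro ⟨j, c, k⟩ he
    rw [mem_filter, mem_evs hr] at he
    obtain ⟨⟨h1, h2⟩, h3, h4⟩ := he
    simp only at h1 h2 h3 h4
    subst h3 h4
    rw [mem_range]
    show k < _
    omega
  · rintro ⟨j, c, k⟩ he ⟨j', c', k'⟩ he' h
    rw [mem_filter] at he he'
    obtain ⟨_, h3, h4⟩ := he
    obtain ⟨_, h3', h4'⟩ := he'
    simp only at h h3 h4 h3' h4'
    subst h h3 h4 h3' h4'
    rfl
  · intro k hk
    rw [mem_range] at hk
    refine ⟨(i, b, k), ?_, rfl⟩
    rw [mem_filter, mem_evs hr]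
    refine ⟨⟨hb, ?_⟩, rfl, rfl⟩
    show (k : ℤ) < r i b
    omega

theorem card_evs_part {S : Bool → Finset ℕ} {r : Bool → ℕ → ℤ} (hr : ∀ i, ∀ b ∈ S i, r i b ≤ 10)
    (i : Bool) : ((evs S r).filter fun e => e.1 = i).card = ∑ b ∈ S i, (r i b).toNat := by
  rw [card_eq_sum_card_fiberwise (f := fun e : Ev => e.2.1) (t := S i)]
  · refine sum_congr rfl fun b hb => ?_
    rw [filter_filter, card_evs_col hr i b hb]
  · intro e he
    rw [Finset.mem_coe, mem_filter, mem_evs hr] at he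
    rw [Finset.mem_coe, ← he.2]
    exact he.1.1

theorem card_evs_part_le {S : Bool → Finset ℕ} {r : Bool → ℕ → ℤ} (hr : ∀ i, ∀ b ∈ S i, r i b ≤ 10)
    (i : Bool) : ((evs S r).filter fun e => e.1 = i).card ≤ 10 * (S i).card := by
  rw [card_evs_part hr, mul_comm, ← smul_eq_mul, ← sum_const]
  refine sum_le_sum fun b hb => ?_
  have := hr i b hb
  omega

theorem card_evs_le {S : Bool → Finset ℕ} {r : Bool → ℕ → ℤ} (hr : ∀ i, ∀ b ∈ S i, r i b ≤ 10) :
    (evs S r).card ≤ 10 * (S false).card + 10 * (S true).card := by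
  have h1 : evs S r ⊆ ((evs S r).filter fun e => e.1 = false) ∪ ((evs S r).filter fun e => e.1 = true) := by
    intro e he
    rw [mem_union, mem_filter, mem_filter]
    rcases h : e.1 with _ | _
    · exact Or.inl ⟨he, rfl⟩
    · exact Or.inr ⟨he, rfl⟩
  exact (card_le_card h1).trans ((card_union_le _ _).trans
    (Nat.add_le_add (card_evs_part_le hr false) (card_evs_part_le hr true)))

theorem card_evs_color {S : Bool → Finset ℕ} {r : Bool → ℕ → ℤ} (hr : ∀ i, ∀ b ∈ S i, r i b ≤ 10)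
    (b : ℕ) : ((evs S r).filter fun e => e.2.1 = b).card ≤ 20 := by
  have key : ∀ i, ((evs S r).filter fun e => e.1 = i ∧ e.2.1 = b).card ≤ 10 := by
    intro i
    by_cases hb : b ∈ S i
    · rw [card_evs_col hr i b hb]
      have := hr i b hb
      omega
    · rw [card_eq_zero.2]
      · omega
      · rw [filter_eq_empty_iff]
        rintro e he ⟨h1, h2⟩
        rw [mem_evs hr] at he
        rw [h1, h2] at he
        exact hb he.1
  have h1 : ((evs S r).filter fun e => e.2.1 = b) ⊆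
      ((evs S r).filter fun e => e.1 = false ∧ e.2.1 = b) ∪
      ((evs S r).filter fun e => e.1 = true ∧ e.2.1 = b) := by
    intro e he
    rw [mem_filter] at he
    rw [mem_union, mem_filter, mem_filter]
    rcases h : e.1 with _ | _
    · exact Or.inl ⟨he.1, rfl, he.2⟩
    · exact Or.inr ⟨he.1, rfl, he.2⟩
  refine (card_le_card h1).trans ((card_union_le _ _).trans ?_)
  have := key false
  have := key true
  omega

/-! ## Matchings -/

section
variable {V : Type u} [Fintype V]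

theorem dg_one {N : SimpleGraph V} (hN : ∀ v, dg N v univ ≤ 1) {v a b : V} (ha : N.Adj v a)
    (hb : N.Adj v b) : a = b := by
  have h := hN v
  unfold dg at h
  rw [card_le_one] at h
  exact h a (by rw [mem_filter]; exact ⟨mem_univ _, ha⟩) b (by rw [mem_filter]; exact ⟨mem_univ _, hb⟩)

theorem dg_le_one {N : SimpleGraph V} {v : V} (h : ∀ a b, N.Adj v a → N.Adj v b → a = b) :
    dg N v univ ≤ 1 := by
  unfold dg
  rw [card_le_one]
  intro a ha b hb
  rw [mem_filter] at ha hb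
  exact h a b ha.2 hb.2

theorem card_le_of_matching {N : SimpleGraph V} (hN : ∀ v, dg N v univ ≤ 1) (A B : Finset V)
    (h : ∀ a ∈ A, ∃ b ∈ B, N.Adj a b) : A.card ≤ B.card := by
  choose! f hf1 hf2 using h
  refine card_le_card_of_injOn f (fun a ha => hf1 a ha) ?_
  intro a ha b hb hab
  have h1 := (hf2 a ha).symm
  have h2 := (hf2 b hb).symm
  rw [← hab] at h2
  exact dg_one hN h1 h2

theorem ee_eq_sum (H : SimpleGraph V) (A B : Finset V) : ee H A B = ∑ v ∈ A, dg H v B := by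
  unfold ee dg
  rw [card_filter, sum_product]
  refine sum_congr rfl fun v _ => ?_
  rw [card_filter]

theorem mem_qtr (sd pt : V → Bool) (β i : Bool) (v : V) :
    v ∈ qtr sd pt β i ↔ sd v = β ∧ pt v = i := by
  unfold qtr
  rw [mem_filter]
  simp

theorem sum_sgv (sd pt : V → Bool) (S : Finset V) (i : Bool) :
    ∑ v ∈ S.filter (fun v => pt v = i), sgv (sd v) =
      ((qtr sd pt false i ∩ S).card : ℤ) - ((qtr sd pt true i ∩ S).card : ℤ) := by
  have h1 : ∀ v, sgv (sd v) = (if sd v = false then (1 : ℤ) else 0) - (if sd v = true then 1 else 0) := by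
    intro v
    unfold sgv
    cases sd v <;> simp
  rw [sum_congr rfl fun v _ => h1 v, sum_sub_distrib, sum_boole, sum_boole]
  have h2 : ∀ β, (S.filter (fun v => pt v = i)).filter (fun v => sd v = β) = qtr sd pt β i ∩ S := by
    intro β
    ext v
    rw [mem_filter, mem_filter, mem_inter, mem_qtr]
    tauto
  rw [h2, h2]

end

/-! ## The stages -/

section
variable {V : Type u} [Fintype V] {H Fr N0 Th : SimpleGraph V} {d M0 : ℕ} {C κ δ : ℝ}
  {sd pt : V → Bool} {Q : Bool → Finset ℕ} {P2 : Finset ℕ} {F2 A : V → Finset ℕ} {c0 : V → ℕ}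
  {T1 Pf : Finset V}

/-- the palettes -/
noncomputable abbrev Sp' (Q : Bool → Finset ℕ) (P2 : Finset ℕ) (i : Bool) : Finset ℕ := P2 ∪ Q (!i)

/-- the events of type T -/
noncomputable abbrev eT (F2 : V → Finset ℕ) (sd pt : V → Bool) (Q : Bool → Finset ℕ)
    (P2 : Finset ℕ) : Finset Ev := evs (Sp' Q P2) fun i b => qq F2 sd pt i b

/-- the events of type P -/
noncomputable abbrev eP (F2 : V → Finset ℕ) (sd pt : V → Bool) (Q : Bool → Finset ℕ)
    (P2 : Finset ℕ) : Finset Ev := evs (Sp' Q P2) fun i b => - qq F2 sd pt i b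

theorem hrT (hI : M2I H Fr N0 Th d M0 C κ δ sd pt Q P2 F2 A c0 T1 Pf) :
    ∀ i, ∀ b ∈ Sp' Q P2 i, qq F2 sd pt i b ≤ 10 := fun i b hb => (abs_le.1 (hI.q10 i b hb)).2

theorem hrP (hI : M2I H Fr N0 Th d M0 C κ δ sd pt Q P2 F2 A c0 T1 Pf) :
    ∀ i, ∀ b ∈ Sp' Q P2 i, - qq F2 sd pt i b ≤ 10 := fun i b hb => by
  have := (abs_le.1 (hI.q10 i b hb)).1
  linarith

/-- free vertices of type T1 -/
theorem exists_Xs (hI : M2I H Fr N0 Th d M0 C κ δ sd pt Q P2 F2 A c0 T1 Pf) (i : Bool) :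
    ∃ Xs : Finset V, (∀ x ∈ Xs, x ∈ T1 ∧ sd x = false ∧ pt x = i ∧ ∀ w, ¬ N0.Adj x w) ∧
      Xs.card = (((qtr sd pt false i ∩ (T1 ∪ Pf)).card : ℤ) -
        ((qtr sd pt true i ∩ (T1 ∪ Pf)).card : ℤ)).toNat := by
  set X := qtr sd pt false i with hX
  set Y := qtr sd pt true i with hY
  set Un := (X ∩ T1).filter fun x => ∀ w, ¬ N0.Adj x w with hUn
  set Cov := (X ∩ T1).filter fun x => ¬ ∀ w, ¬ N0.Adj x w with hCov
  have h1 : (X ∩ T1).card = Un.card + Cov.card := (card_filter_add_card_filter_not _).symm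
  have h2 : Cov.card ≤ (Y ∩ Pf).card := by
    refine card_le_of_matching hI.N0m _ _ fun a ha => ?_
    rw [hCov, mem_filter, mem_inter] at ha
    obtain ⟨⟨h3, h4⟩, h5⟩ := ha
    push Not at h5
    obtain ⟨w, hw⟩ := h5
    obtain ⟨h6, h7⟩ := hI.N0a a w hw
    have h8 : w ∈ Pf := by
      rcases h7 with h7 | h7
      · exact absurd h4 (disjoint_right.1 hI.TP h7.1)
      · exact h7.1
    have h9 := hI.Hc a w h6
    rw [hX, mem_qtr] at h3
    refine ⟨w, ?_, hw⟩
    rw [mem_inter, hY, mem_qtr]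
    refine ⟨⟨?_, ?_⟩, h8⟩
    · have := h9.1
      rw [h3.1] at this
      cases h : sd w
      · exact absurd h.symm this
      · rfl
    · rw [← h9.2, h3.2]
  have h3 : (X ∩ Pf).card ≤ (Y ∩ T1).card := by
    refine card_le_of_matching hI.N0m _ _ fun a ha => ?_
    rw [mem_inter] at ha
    obtain ⟨w, hw1, hw2⟩ := hI.N0p a ha.2
    have h9 := hI.Hc a w (hI.N0a a w hw2).1
    have h3 := ha.1
    rw [hX, mem_qtr] at h3
    refine ⟨w, ?_, hw2⟩
    rw [mem_inter, hY, mem_qtr]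
    refine ⟨⟨?_, ?_⟩, hw1⟩
    · have := h9.1
      rw [h3.1] at this
      cases h : sd w
      · exact absurd h.symm this
      · rfl
    · rw [← h9.2, h3.2]
  have h4 : ∀ Z : Finset V, (Z ∩ (T1 ∪ Pf)).card = (Z ∩ T1).card + (Z ∩ Pf).card := by
    intro Z
    rw [inter_union_distrib_left, card_union_of_disjoint]
    exact (hI.TP.mono inter_subset_right inter_subset_right)
  have h5 : ((((X ∩ (T1 ∪ Pf)).card : ℤ) - ((Y ∩ (T1 ∪ Pf)).card : ℤ))).toNat ≤ Un.card := by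
    rw [h4, h4, h1]
    omega
  obtain ⟨Xs, hXs1, hXs2⟩ := exists_subset_card_eq h5
  refine ⟨Xs, fun x hx => ?_, hXs2⟩
  have h6 := hXs1 hx
  rw [hUn, mem_filter, mem_inter, hX, mem_qtr] at h6
  exact ⟨h6.1.2, h6.1.1.1, h6.1.1.2, h6.2⟩

/-- partners of the events of type P -/
theorem exists_phi [Nonempty V] (hI : M2I H Fr N0 Th d M0 C κ δ sd pt Q P2 F2 A c0 T1 Pf)
    (Xs : Bool → Finset V) (hX1 : ∀ i, ∀ x ∈ Xs i, pt x = i)
    (hX2 : ∀ i, (Xs i).card = (((qtr sd pt false i ∩ (T1 ∪ Pf)).card : ℤ) -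
        ((qtr sd pt true i ∩ (T1 ∪ Pf)).card : ℤ)).toNat) :
    ∃ φ : Ev → V ⊕ Ev, (∀ e ∈ eP F2 sd pt Q P2, ∀ x, φ e = Sum.inl x → x ∈ Xs e.1) ∧
      (∀ e ∈ eP F2 sd pt Q P2, ∀ e', φ e = Sum.inr e' → e' ∈ eT F2 sd pt Q P2 ∧ e'.1 = e.1) ∧
      ∀ e ∈ eP F2 sd pt Q P2, ∀ e' ∈ eP F2 sd pt Q P2, φ e = φ e' → e = e' := by
  have hc : ∀ i, ((eP F2 sd pt Q P2).filter fun e => e.1 = i).card ≤
      ((Xs i).disjSum ((eT F2 sd pt Q P2).filter fun e => e.1 = i)).card := by
    intro i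
    rw [card_disjSum, card_evs_part (hrP hI), card_evs_part (hrT hI), hX2]
    have h1 := hI.hid i
    rw [sum_sgv] at h1
    have h2 : ∑ b ∈ Sp' Q P2 i, qq F2 sd pt i b = ((∑ b ∈ Sp' Q P2 i, (qq F2 sd pt i b).toNat : ℕ) : ℤ) -
        ((∑ b ∈ Sp' Q P2 i, (- qq F2 sd pt i b).toNat : ℕ) : ℤ) := by
      push_cast
      rw [← sum_sub_distrib]
      refine sum_congr rfl fun b _ => ?_
      omega
    have h3 : ∑ b ∈ P2 ∪ Q (!i), qq F2 sd pt i b = ∑ b ∈ Sp' Q P2 i, qq F2 sd pt i b := rfl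
    rw [h3, h2] at h1
    omega
  choose f hf1 hf2 using fun i => exists_inj _ _ (hc i)
  have hf1' : ∀ e ∈ eP F2 sd pt Q P2, f e.1 e ∈
      (Xs e.1).disjSum ((eT F2 sd pt Q P2).filter fun e' => e'.1 = e.1) :=
    fun e he => hf1 e.1 e (mem_filter.2 ⟨he, rfl⟩)
  have k1 : ∀ e ∈ eP F2 sd pt Q P2, ∀ x, f e.1 e = Sum.inl x → x ∈ Xs e.1 := by
    intro e he x hx
    have := hf1' e he
    rw [hx, inl_mem_disjSum] at this
    exact this
  have k2 : ∀ e ∈ eP F2 sd pt Q P2, ∀ e', f e.1 e = Sum.inr e' →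
      e' ∈ eT F2 sd pt Q P2 ∧ e'.1 = e.1 := by
    intro e he e' hx
    have := hf1' e he
    rw [hx, inr_mem_disjSum, mem_filter] at this
    exact this
  refine ⟨fun e => f e.1 e, k1, k2, ?_⟩
  intro e he e' he' h
  have h1 : e.1 = e'.1 := by
    rcases h2 : f e.1 e with x | e''
    · have h3 : f e'.1 e' = Sum.inl x := by rw [← h2]; exact h.symm
      rw [← hX1 _ x (k1 e he x h2), ← hX1 _ x (k1 e' he' x h3)]
    · have h3 : f e'.1 e' = Sum.inr e'' := by rw [← h2]; exact h.symm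
      rw [← (k2 e he e'' h2).2, ← (k2 e' he' e'' h3).2]
  refine hf2 e.1 e (mem_filter.2 ⟨he, rfl⟩) e' (mem_filter.2 ⟨he', h1.symm⟩) ?_
  have h2 : f e.1 e = f e'.1 e' := h
  rw [h2, ← h1]

/-- the number of the events of type P with a partner in `T1` -/
theorem card_SA (hI : M2I H Fr N0 Th d M0 C κ δ sd pt Q P2 F2 A c0 T1 Pf)
    (Xs : Bool → Finset V)
    (hX2 : ∀ i, (Xs i).card = (((qtr sd pt false i ∩ (T1 ∪ Pf)).card : ℤ) -
        ((qtr sd pt true i ∩ (T1 ∪ Pf)).card : ℤ)).toNat)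
    (φ : Ev → V ⊕ Ev) (h1 : ∀ e ∈ eP F2 sd pt Q P2, ∀ x, φ e = Sum.inl x → x ∈ Xs e.1)
    (h3 : ∀ e ∈ eP F2 sd pt Q P2, ∀ e' ∈ eP F2 sd pt Q P2, φ e = φ e' → e = e') :
    ((((eP F2 sd pt Q P2).filter fun e => ∃ x, φ e = Sum.inl x).card : ℕ) : ℝ) ≤ 2 * (δ * d) := by
  have h4 : ((eP F2 sd pt Q P2).filter fun e => ∃ x, φ e = Sum.inl x).card ≤
      ((Xs false ∪ Xs true).image (Sum.inl : V → V ⊕ Ev)).card := by
    refine card_le_card_of_injOn φ ?_ ?_
    · intro e he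
      rw [Finset.mem_coe, mem_filter] at he
      obtain ⟨he, x, hx⟩ := he
      have h5 := h1 e he x hx
      rw [Finset.mem_coe, mem_image]
      refine ⟨x, ?_, hx.symm⟩
      rw [mem_union]
      rcases h : e.1 with _ | _
      · rw [h] at h5; exact Or.inl h5
      · rw [h] at h5; exact Or.inr h5
    · intro e he e' he' h
      rw [Finset.mem_coe, mem_filter] at he he'
      exact h3 e he.1 e' he'.1 h
  have h5 := h4.trans (card_image_le.trans (card_union_le _ _))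
  have h6 : ∀ i, ((Xs i).card : ℝ) ≤ δ * d := by
    intro i
    have h7 := hI.sgn i
    rw [sum_sgv] at h7
    have h8 := (abs_le.1 h7).2
    have h9 := (abs_nonneg _).trans h7
    rw [hX2]
    set z : ℤ := ((qtr sd pt false i ∩ (T1 ∪ Pf)).card : ℤ) -
        ((qtr sd pt true i ∩ (T1 ∪ Pf)).card : ℤ)
    rcases le_total z 0 with hz | hz
    · rw [Int.toNat_of_nonpos hz]
      simpa using h9
    · have : ((z.toNat : ℕ) : ℝ) = ((z : ℤ) : ℝ) := by
        have h10 : ((z.toNat : ℕ) : ℤ) = z := Int.toNat_of_nonneg hz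
        exact_mod_cast congrArg (fun t : ℤ => (t : ℝ)) h10
      rw [this]
      exact h8
  have h7 := h6 false
  have h8 := h6 true
  have h9 : ((((eP F2 sd pt Q P2).filter fun e => ∃ x, φ e = Sum.inl x).card : ℕ) : ℝ) ≤
      (Xs false).card + (Xs true).card := by exact_mod_cast h5
  linarith

theorem mem_us (F : V → Finset ℕ) (b : ℕ) (v : V) : v ∈ us F b ↔ b ∈ F v := by
  unfold us
  rw [mem_filter]
  simp

theorem dg_le {v : V} (Z B : Finset V) (h : ∀ w, H.Adj v w → w ∈ Z ∨ w ∈ B) :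
    dg H v univ ≤ dg H v Z + B.card := by
  unfold dg
  refine (card_le_card (t := (Z.filter fun w => H.Adj v w) ∪ B) ?_).trans (card_union_le _ _)
  intro w hw
  rw [mem_filter] at hw
  rw [mem_union, mem_filter]
  rcases h w hw.2 with h | h
  · exact Or.inl ⟨h, hw.2⟩
  · exact Or.inr h

theorem adj_qtr (hI : M2I H Fr N0 Th d M0 C κ δ sd pt Q P2 F2 A c0 T1 Pf) {β i : Bool} {x : V}
    (hx : sd x = β) (hx' : pt x = i) {w : V} (hw : H.Adj x w) : w ∈ qtr sd pt (!β) i := by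
  have h := hI.Hc x w hw
  rw [mem_qtr, ← h.2, hx']
  refine ⟨?_, rfl⟩
  have h1 := h.1
  rw [hx] at h1
  cases β <;> cases h2 : sd w <;> simp_all

/-- Stage A: the vertices missed in the events of type P with a partner in `T1` -/
theorem stageA [Nonempty V] (hI : M2I H Fr N0 Th d M0 C κ δ sd pt Q P2 F2 A c0 T1 Pf)
    (hd : 0 < (d : ℝ)) (hκ : 0 < κ) (hκ1 : κ ≤ 1 / 100) (hδ : 0 < δ) (hδ1 : δ ≤ κ / 4800)
    (Xs : Bool → Finset V)
    (hX0 : ∀ i, ∀ x ∈ Xs i, sd x = false ∧ pt x = i)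
    (φ : Ev → V ⊕ Ev) (h1 : ∀ e ∈ eP F2 sd pt Q P2, ∀ x, φ e = Sum.inl x → x ∈ Xs e.1)
    (hc : ((((eP F2 sd pt Q P2).filter fun e => ∃ x, φ e = Sum.inl x).card : ℕ) : ℝ) ≤ 2 * (δ * d)) :
    ∃ yA : Ev → V, (∀ e ∈ (eP F2 sd pt Q P2).filter fun e => ∃ x, φ e = Sum.inl x,
        sd (yA e) = true ∧ pt (yA e) = e.1 ∧ yA e ∉ T1 ∪ Pf ∧ e.2.1 ∉ F2 (yA e) ∧
        ∀ x, φ e = Sum.inl x → Fr.Adj x (yA e)) ∧
      (∀ e ∈ (eP F2 sd pt Q P2).filter fun e => ∃ x, φ e = Sum.inl x,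
        ∀ e' ∈ (eP F2 sd pt Q P2).filter fun e => ∃ x, φ e = Sum.inl x, e ≠ e' → yA e ≠ yA e') := by
  refine greedy' ((eP F2 sd pt Q P2).filter fun e => ∃ x, φ e = Sum.inl x)
    (fun e y => sd y = true ∧ pt y = e.1 ∧ y ∉ T1 ∪ Pf ∧ e.2.1 ∉ F2 y ∧
        ∀ x, φ e = Sum.inl x → Fr.Adj x y) ?_
  intro e he S' hS' heS' g hg
  rw [mem_filter] at he
  obtain ⟨he, x, hx⟩ := he
  have hxX := hX0 _ x (h1 e he x hx)
  have heb := (mem_evs (hrP hI) e).1 he
  set Z := qtr sd pt true e.1 \ (T1 ∪ Pf) with hZ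
  -- the candidates
  have k1 : (dg H x univ : ℝ) ≤ dg H x Z + (qtr sd pt true e.1 ∩ (T1 ∪ Pf)).card := by
    have := dg_le (H := H) (v := x) Z (qtr sd pt true e.1 ∩ (T1 ∪ Pf)) (fun w hw => by
      have h2 := adj_qtr hI hxX.1 hxX.2 hw
      by_cases h3 : w ∈ T1 ∪ Pf
      · exact Or.inr (mem_inter.2 ⟨h2, h3⟩)
      · exact Or.inl (mem_sdiff.2 ⟨h2, h3⟩))
    exact_mod_cast this
  have k2 := hI.Hd x
  have k3 := hI.qua true e.1
  have k4 := hI.frd x e.1
  have k5 : (1 / 5 - 2 * δ) * d ≤ (dg H x Z : ℝ) := by linarith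
  have k6 : κ * ((1 / 5 - 2 * δ) * d) ≤ (dg Fr x Z : ℝ) + δ * d :=
    (mul_le_mul_of_nonneg_left k5 hκ.le).trans k4
  -- the forbidden vertices
  have heb1 : e.2.1 ∈ P2 ∪ Q false ∪ Q true := by
    have := heb.1
    rw [mem_union] at this
    rw [mem_union, mem_union]
    rcases this with h | h
    · exact Or.inl (Or.inl h)
    · cases h3 : e.1
      · rw [h3] at h; exact Or.inr h
      · rw [h3] at h; exact Or.inl (Or.inr h)
  have k7 := hI.F2l _ heb1
  have k8 : ((S'.image g).card : ℝ) ≤ 2 * (δ * d) := by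
    have h2 : (S'.image g).card ≤ ((eP F2 sd pt Q P2).filter fun e => ∃ x, φ e = Sum.inl x).card :=
      card_image_le.trans (card_le_card hS')
    exact (Nat.cast_le.2 h2).trans hc
  have k9 : ((us F2 e.2.1 ∪ S'.image g).card : ℝ) ≤ 3 * (δ * d) := by
    have h2 : (((us F2 e.2.1 ∪ S'.image g).card : ℕ) : ℝ) ≤ (us F2 e.2.1).card + (S'.image g).card := by
      exact_mod_cast card_union_le _ _
    linarith
  have k10 : ((us F2 e.2.1 ∪ S'.image g).card : ℝ) < ((Z.filter fun w => Fr.Adj x w).card : ℝ) := by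
    refine k9.trans_lt ?_
    have h2 : (dg Fr x Z : ℝ) = ((Z.filter fun w => Fr.Adj x w).card : ℝ) := rfl
    rw [← h2]
    have h3 : 4 * (δ * d) < κ * ((1 / 5 - 2 * δ) * d) := by
      have h4 : 4 * δ < κ * (1 / 5 - 2 * δ) := by nlinarith
      have := mul_lt_mul_of_pos_right h4 hd
      linarith
    linarith
  obtain ⟨y, hy1, hy2⟩ := exists_out _ _ (Nat.cast_lt.1 k10)
  rw [mem_filter, hZ, mem_sdiff, mem_qtr] at hy1
  rw [mem_union, not_or, mem_us] at hy2
  refine ⟨y, ⟨hy1.1.1.1, hy1.1.1.2, hy1.1.2, hy2.1, ?_⟩, ?_⟩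
  · intro x' hx'
    rw [hx] at hx'
    rw [← Sum.inl.inj hx']
    exact hy1.2
  · intro t' ht' hyt
    exact hy2.2 (mem_image.2 ⟨t', ht', hyt.symm⟩)

theorem mem_nb (G : SimpleGraph V) (v w : V) : w ∈ nb G v ↔ G.Adj v w := by
  unfold nb
  rw [mem_filter]
  simp

/-- the side `false` of a part with an event of type T is large -/
theorem card_side (hI : M2I H Fr N0 Th d M0 C κ δ sd pt Q P2 F2 A c0 T1 Pf)
    (hd : 0 < (d : ℝ)) (hδ1 : δ < 1 / 2) {i : Bool} {b : ℕ} (hq : 0 < qq F2 sd pt i b) :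
    (1 / 2 - δ) * d ≤ ((qtr sd pt false i).card : ℝ) := by
  have h1 : 0 < (qtr sd pt false i \ us F2 b).card := by
    unfold qq at hq
    omega
  obtain ⟨x0, hx0⟩ := card_pos.1 h1
  rw [mem_sdiff, mem_qtr] at hx0
  have h2 := hI.Hd x0
  have h3 : 0 < dg H x0 univ := by
    have : (0 : ℝ) < (dg H x0 univ : ℝ) := by
      refine lt_of_lt_of_le ?_ h2
      have : 0 < 1 / 2 - δ := by linarith
      positivity
    exact_mod_cast this
  unfold dg at h3
  obtain ⟨y0, hy0⟩ := card_pos.1 h3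
  rw [mem_filter] at hy0
  have h4 := adj_qtr hI hx0.1.1 hx0.1.2 hy0.2
  rw [mem_qtr] at h4
  have h5 : dg H y0 univ ≤ (qtr sd pt false i).card := by
    unfold dg
    refine card_le_card fun w hw => ?_
    rw [mem_filter] at hw
    have := adj_qtr hI h4.1 h4.2 hw.2
    simpa using this
  exact (hI.Hd y0).trans (Nat.cast_le.2 h5)

theorem card_eT (hI : M2I H Fr N0 Th d M0 C κ δ sd pt Q P2 F2 A c0 T1 Pf) :
    (((eT F2 sd pt Q P2).card : ℕ) : ℝ) ≤ d / 25 := by
  have h1 := card_evs_le (hrT hI)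
  have h2 := hI.Pc false
  have h3 := hI.Pc true
  have h4 : (((eT F2 sd pt Q P2).card : ℕ) : ℝ) ≤
      10 * ((P2 ∪ Q true).card : ℝ) + 10 * ((P2 ∪ Q false).card : ℝ) := by
    exact_mod_cast h1
  linarith

/-- Stage B: the vertices missed in the events of type T, and possible partners -/
theorem stageB [Nonempty V] (hI : M2I H Fr N0 Th d M0 C κ δ sd pt Q P2 F2 A c0 T1 Pf)
    (hd : 0 < (d : ℝ)) (hκ : 0 < κ) (hκ1 : κ ≤ 1 / 100) (hδ : 0 < δ)
    (hδ1 : (24 + M0) * δ ≤ κ / 200)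
    (YA : Finset V) (hYA : (YA.card : ℝ) ≤ 2 * (δ * d)) (mb : Ev → ℕ)
    (hmb : ∀ e ∈ eT F2 sd pt Q P2, mb e ∈ P2 ∪ Q false ∪ Q true) :
    ∃ g : Ev → V × V, (∀ e ∈ eT F2 sd pt Q P2,
        sd (g e).1 = false ∧ pt (g e).1 = e.1 ∧ (g e).1 ∉ T1 ∪ Pf ∧ e.2.1 ∉ F2 (g e).1 ∧
        e.2.1 ∉ A (g e).1 ∧ (∀ w, Th.Adj (g e).1 w → c0 w ≠ e.2.1) ∧
        sd (g e).2 = true ∧ pt (g e).2 = e.1 ∧ (g e).2 ∉ T1 ∪ Pf ∧ mb e ∉ F2 (g e).2 ∧
        (g e).2 ∉ YA ∧ Fr.Adj (g e).1 (g e).2) ∧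
      (∀ e ∈ eT F2 sd pt Q P2, ∀ e' ∈ eT F2 sd pt Q P2, e ≠ e' →
        ¬ ((g e).1 = (g e').1 ∨ (g e).2 = (g e').2 ∨
          (e.2.1 = e'.2.1 ∧ Th.Adj (g e).1 (g e').1))) := by
  refine greedy (eT F2 sd pt Q P2)
    (fun (e : Ev) (p : V × V) => sd p.1 = false ∧ pt p.1 = e.1 ∧ p.1 ∉ T1 ∪ Pf ∧ e.2.1 ∉ F2 p.1 ∧
        e.2.1 ∉ A p.1 ∧ (∀ w, Th.Adj p.1 w → c0 w ≠ e.2.1) ∧
        sd p.2 = true ∧ pt p.2 = e.1 ∧ p.2 ∉ T1 ∪ Pf ∧ mb e ∉ F2 p.2 ∧
        p.2 ∉ YA ∧ Fr.Adj p.1 p.2)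
    (fun (e : Ev) (p : V × V) (e' : Ev) (p' : V × V) => p.1 = p'.1 ∨ p.2 = p'.2 ∨ (e.2.1 = e'.2.1 ∧ Th.Adj p.1 p'.1)) ?_ ?_
  · rintro e p e' p' (h | h | h)
    · exact Or.inl h.symm
    · exact Or.inr (Or.inl h.symm)
    · exact Or.inr (Or.inr ⟨h.1.symm, h.2.symm⟩)
  intro e he S' hS' heS' g hg
  have heb := (mem_evs (hrT hI) e).1 he
  have hM0 : (0 : ℝ) ≤ M0 := Nat.cast_nonneg _
  have hδd : 0 < δ * d := mul_pos hδ hd
  have hδ2 : δ ≤ κ / 4800 := by nlinarith
  have heb1 : e.2.1 ∈ P2 ∪ Q false ∪ Q true := by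
    have := heb.1
    rw [mem_union] at this
    rw [mem_union, mem_union]
    rcases this with h | h
    · exact Or.inl (Or.inl h)
    · cases h3 : e.1
      · rw [h3] at h; exact Or.inr h
      · rw [h3] at h; exact Or.inl (Or.inr h)
  have hq : 0 < qq F2 sd pt e.1 e.2.1 := lt_of_le_of_lt (Int.natCast_nonneg _) heb.2
  have hTc := card_eT hI
  have hS'c : (S'.card : ℝ) ≤ d / 25 := (Nat.cast_le.2 (card_le_card hS')).trans hTc
  -- the forbidden vertices of the side `false`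
  set B1 := (univ.filter fun v => c0 v = e.2.1).biUnion (nb Th) with hB1
  set B2 := (S'.filter fun e' => e'.2.1 = e.2.1).biUnion (fun e' => nb Th (g e').1) with hB2
  set Bx := (qtr sd pt false e.1 ∩ (T1 ∪ Pf)) ∪ (us F2 e.2.1 ∪ (us A e.2.1 ∪
    (B1 ∪ (S'.image (fun e' => (g e').1) ∪ B2)))) with hBx
  have b1 : (B1.card : ℝ) ≤ M0 * (δ * d) :=
    card_biUnion_le' _ _ _ _ (by exact_mod_cast hI.c0c e.2.1) hδd.le fun a _ => hI.Tx a
  have b2 : (B2.card : ℝ) ≤ 20 * (δ * d) := by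
    refine card_biUnion_le' _ _ _ _ ?_ hδd.le fun a _ => hI.Tx _
    have h2 : (S'.filter fun e' => e'.2.1 = e.2.1).card ≤ 20 :=
      (card_le_card (filter_subset_filter _ hS')).trans (card_evs_color (hrT hI) e.2.1)
    exact_mod_cast h2
  have b3 : ((S'.image (fun e' => (g e').1)).card : ℝ) ≤ d / 25 :=
    (Nat.cast_le.2 card_image_le).trans hS'c
  have hcu : ∀ X Y : Finset V, ((X ∪ Y).card : ℝ) ≤ X.card + Y.card := fun X Y => by
    exact_mod_cast card_union_le X Y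
  have bx : (Bx.card : ℝ) ≤ (3 / 10 + δ) * d + (δ * d + (δ * d + (M0 * (δ * d) +
      (d / 25 + 20 * (δ * d))))) := by
    refine (hcu _ _).trans (add_le_add (hI.qua false e.1) ?_)
    refine (hcu _ _).trans (add_le_add (hI.F2l _ heb1) ?_)
    refine (hcu _ _).trans (add_le_add (hI.Al _ heb1) ?_)
    refine (hcu _ _).trans (add_le_add b1 ?_)
    exact (hcu _ _).trans (add_le_add b3 b2)
  -- the forbidden vertices of the side `true`
  set By := (qtr sd pt true e.1 ∩ (T1 ∪ Pf)) ∪ (us F2 (mb e) ∪ (YA ∪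
    S'.image (fun e' => (g e').2))) with hBy
  have b4 : ((S'.image (fun e' => (g e').2)).card : ℝ) ≤ d / 25 :=
    (Nat.cast_le.2 card_image_le).trans hS'c
  have by' : (By.card : ℝ) ≤ (3 / 10 + δ) * d + (δ * d + (2 * (δ * d) + d / 25)) := by
    refine (hcu _ _).trans (add_le_add (hI.qua true e.1) ?_)
    refine (hcu _ _).trans (add_le_add (hI.F2l _ (hmb e he)) ?_)
    exact (hcu _ _).trans (add_le_add hYA b4)
  -- candidates
  set A' := qtr sd pt false e.1 \ Bx with hA'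
  set B' := qtr sd pt true e.1 \ By with hB'
  have hδM : (24 + M0) * (δ * d) ≤ κ / 200 * d := by
    have := mul_le_mul_of_nonneg_right hδ1 hd.le
    linarith
  have hδM' : 0 ≤ M0 * (δ * d) := by positivity
  have a1 : (d : ℝ) / 10 ≤ A'.card := by
    have h2 := card_side hI hd (by linarith) hq
    have h3 : ((qtr sd pt false e.1).card : ℝ) ≤ A'.card + Bx.card := by
      have : (qtr sd pt false e.1).card ≤ A'.card + Bx.card := by
        refine (card_le_card (t := A' ∪ Bx) ?_).trans (card_union_le _ _)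
        intro v hv
        rw [mem_union, hA', mem_sdiff]
        tauto
      exact_mod_cast this
    have h4 : κ / 200 * d ≤ 1 / 20000 * d := mul_le_mul_of_nonneg_right (by linarith) hd.le
    linarith
  have a2 : ∀ x ∈ A', (d : ℝ) / 10 ≤ dg H x B' := by
    intro x hx
    rw [hA', mem_sdiff, mem_qtr] at hx
    have h2 := hI.Hd x
    have h3 : (dg H x univ : ℝ) ≤ dg H x B' + By.card := by
      have := dg_le (H := H) (v := x) B' By (fun w hw => by
        have h2 := adj_qtr hI hx.1.1 hx.1.2 hw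
        by_cases h3 : w ∈ By
        · exact Or.inr h3
        · exact Or.inl (mem_sdiff.2 ⟨h2, h3⟩))
      exact_mod_cast this
    have h4 : κ / 200 * d ≤ 1 / 20000 * d := mul_le_mul_of_nonneg_right (by linarith) hd.le
    linarith
  have a3 : (d : ℝ) / 10 * (d / 10) ≤ ee H A' B' := by
    rw [ee_eq_sum]
    push_cast
    calc (d : ℝ) / 10 * (d / 10) ≤ A'.card * (d / 10) :=
          mul_le_mul_of_nonneg_right a1 (by positivity)
      _ = ∑ _x ∈ A', (d : ℝ) / 10 := by rw [sum_const, nsmul_eq_mul]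
      _ ≤ ∑ x ∈ A', (dg H x B' : ℝ) := sum_le_sum a2
  have a4 : (0 : ℝ) < ee Fr A' B' := by
    have h2 := hI.fre A' B'
    have h3 := mul_le_mul_of_nonneg_left a3 hκ.le
    have h4 : δ * (d : ℝ) ^ 2 < κ * (d / 10 * (d / 10)) := by
      have h5 : δ < κ / 100 := by linarith
      have h6 : (0 : ℝ) < (d : ℝ) ^ 2 := by positivity
      have := mul_lt_mul_of_pos_right h5 h6
      linarith
    linarith
  have a5 : 0 < ee Fr A' B' := by exact_mod_cast a4
  unfold ee at a5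
  obtain ⟨p, hp⟩ := card_pos.1 a5
  rw [mem_filter, mem_product, hA', hB', mem_sdiff, mem_sdiff, mem_qtr, mem_qtr, hBx, hBy] at hp
  obtain ⟨⟨⟨⟨p1, p2⟩, p3⟩, ⟨p4, p5⟩, p6⟩, p7⟩ := hp
  simp only [mem_union, not_or, mem_inter, not_and, mem_us] at p3 p6
  obtain ⟨p31, p32, p33, p34, p35, p36⟩ := p3
  obtain ⟨p61, p62, p63, p64⟩ := p6
  have p31' := p31 ((mem_qtr _ _ _ _ _).2 ⟨p1, p2⟩)
  have p61' := p61 ((mem_qtr _ _ _ _ _).2 ⟨p4, p5⟩)
  refine ⟨p, ⟨p1, p2, ?_, p32, p33, ?_, p4, p5, ?_, p62, p63, p7⟩, ?_⟩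
  · rw [mem_union]
    tauto
  · intro w hw hcw
    apply p34
    rw [hB1, mem_biUnion]
    exact ⟨w, by rw [mem_filter]; exact ⟨mem_univ _, hcw⟩, (mem_nb _ _ _).2 hw.symm⟩
  · rw [mem_union]
    tauto
  · rintro t' ht' (h | h | h)
    · exact p35 (mem_image.2 ⟨t', ht', h.symm⟩)
    · exact p64 (mem_image.2 ⟨t', ht', h.symm⟩)
    · apply p36
      rw [hB2, mem_biUnion]
      exact ⟨t', mem_filter.2 ⟨ht', h.1.symm⟩, (mem_nb _ _ _).2 h.2.symm⟩

theorem col_mem {i : Bool} {b : ℕ} (h : b ∈ Sp' Q P2 i) : b ∈ P2 ∪ Q false ∪ Q true := by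
  rw [mem_union] at h
  rw [mem_union, mem_union]
  rcases h with h | h
  · exact Or.inl (Or.inl h)
  · cases i
    · exact Or.inr h
    · exact Or.inl (Or.inr h)

/-- the number of events of a colour -/
theorem card_evs_color_le {S : Bool → Finset ℕ} {r : Bool → ℕ → ℤ} (hr : ∀ i, ∀ b ∈ S i, r i b ≤ 10)
    (b : ℕ) : ((evs S r).filter fun e => e.2.1 = b).card ≤
      (if b ∈ S false then (r false b).toNat else 0) + (if b ∈ S true then (r true b).toNat else 0) := by
  have key : ∀ i, ((evs S r).filter fun e => e.1 = i ∧ e.2.1 = b).card ≤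
      if b ∈ S i then (r i b).toNat else 0 := by
    intro i
    by_cases hb : b ∈ S i
    · rw [card_evs_col hr i b hb, if_pos hb]
    · rw [card_eq_zero.2]
      · exact Nat.zero_le _
      · rw [filter_eq_empty_iff]
        rintro e he ⟨h1, h2⟩
        rw [mem_evs hr] at he
        rw [h1, h2] at he
        exact hb he.1
  have h1 : ((evs S r).filter fun e => e.2.1 = b) ⊆
      ((evs S r).filter fun e => e.1 = false ∧ e.2.1 = b) ∪
      ((evs S r).filter fun e => e.1 = true ∧ e.2.1 = b) := by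
    intro e he
    rw [mem_filter] at he
    rw [mem_union, mem_filter, mem_filter]
    rcases h : e.1 with _ | _
    · exact Or.inl ⟨he.1, rfl, he.2⟩
    · exact Or.inr ⟨he.1, rfl, he.2⟩
  exact (card_le_card h1).trans ((card_union_le _ _).trans (Nat.add_le_add (key false) (key true)))

/-- the assembly -/
theorem asm [Nonempty V] (hI : M2I H Fr N0 Th d M0 C κ δ sd pt Q P2 F2 A c0 T1 Pf)
    (px py : Ev → V) (g : Ev → V)
    (hT : ∀ e ∈ eT F2 sd pt Q P2, sd (g e) = false ∧ pt (g e) = e.1 ∧ g e ∉ T1 ∪ Pf ∧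
      e.2.1 ∉ F2 (g e) ∧ e.2.1 ∉ A (g e) ∧ (∀ w, Th.Adj (g e) w → c0 w ≠ e.2.1))
    (hT' : ∀ e ∈ eT F2 sd pt Q P2, ∀ e' ∈ eT F2 sd pt Q P2, e ≠ e' →
        ¬ (g e = g e' ∨ (e.2.1 = e'.2.1 ∧ Th.Adj (g e) (g e'))))
    (hP : ∀ e ∈ eP F2 sd pt Q P2, sd (px e) = false ∧ sd (py e) = true ∧ pt (py e) = e.1 ∧
      py e ∉ T1 ∪ Pf ∧ e.2.1 ∉ F2 (py e) ∧ Fr.Adj (px e) (py e) ∧ (∀ w, ¬ N0.Adj (px e) w) ∧
      (px e ∈ T1 ∨ ∃ e' ∈ eT F2 sd pt Q P2, px e = g e'))
    (hPx : ∀ e ∈ eP F2 sd pt Q P2, ∀ e' ∈ eP F2 sd pt Q P2, px e = px e' → e = e')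
    (hPy : ∀ e ∈ eP F2 sd pt Q P2, ∀ e' ∈ eP F2 sd pt Q P2, py e = py e' → e = e') :
    ∃ (W2 : ℕ → Finset V) (N1 : SimpleGraph V),
        M2O Fr N0 N1 Th sd pt Q P2 F2 A c0 T1 Pf W2 := by
  set WT : ℕ → Finset V := fun b => ((eT F2 sd pt Q P2).filter fun e => e.2.1 = b).image g with hWT
  set WP : ℕ → Finset V := fun b => ((eP F2 sd pt Q P2).filter fun e => e.2.1 = b).image py with hWP
  have mWT : ∀ b v, v ∈ WT b ↔ ∃ e ∈ eT F2 sd pt Q P2, e.2.1 = b ∧ g e = v := by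
    intro b v
    rw [hWT]
    simp only [mem_image, mem_filter, and_assoc]
  have mWP : ∀ b v, v ∈ WP b ↔ ∃ e ∈ eP F2 sd pt Q P2, e.2.1 = b ∧ py e = v := by
    intro b v
    rw [hWP]
    simp only [mem_image, mem_filter, and_assoc]
  have hgi : ∀ e ∈ eT F2 sd pt Q P2, ∀ e' ∈ eT F2 sd pt Q P2, g e = g e' → e = e' := by
    intro e he e' he' h
    by_contra hne
    exact hT' e he e' he' hne (Or.inl h)
  set N1 : SimpleGraph V :=
    { Adj := fun v w => ∃ e ∈ eP F2 sd pt Q P2, (v = px e ∧ w = py e) ∨ (w = px e ∧ v = py e)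
      symm := ⟨fun v w ⟨e, he, h⟩ => ⟨e, he, h.symm⟩⟩
      loopless := ⟨fun v ⟨e, he, h⟩ => by
        have h1 := hP e he
        rcases h with h | h
        · rw [← h.1, ← h.2] at h1
          rw [h1.1] at h1
          exact absurd h1.2.1 (by simp)
        · rw [← h.1, ← h.2] at h1
          rw [h1.1] at h1
          exact absurd h1.2.1 (by simp)⟩ } with hN1
  have aN1 : ∀ v w, N1.Adj v w ↔
      ∃ e ∈ eP F2 sd pt Q P2, (v = px e ∧ w = py e) ∨ (w = px e ∧ v = py e) := fun v w => Iff.rfl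
  have hN0 : ∀ v w, N0.Adj v w → v ∈ T1 ∪ Pf := by
    intro v w h
    rw [mem_union]
    rcases (hI.N0a v w h).2 with h | h
    · exact Or.inr h.1
    · exact Or.inl h.2
  refine ⟨fun b => WT b ∪ WP b, N1, ?_, ?_, ?_, ?_, ?_, ?_, ?_, ?_⟩
  · -- W
    intro b v hv
    rw [mem_union, mWT, mWP] at hv
    rcases hv with ⟨e, he, rfl, rfl⟩ | ⟨e, he, rfl, rfl⟩
    · have h1 := hT e he
      have h2 := (mem_evs (hrT hI) e).1 he
      rw [mem_union, not_or] at h1
      refine ⟨?_, h1.2.2.2.1, h1.2.2.1.1, h1.2.2.1.2⟩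
      rw [h1.2.1]
      exact h2.1
    · have h1 := hP e he
      have h2 := (mem_evs (hrP hI) e).1 he
      rw [mem_union, not_or] at h1
      refine ⟨?_, h1.2.2.2.2.1, h1.2.2.2.1.1, h1.2.2.2.1.2⟩
      rw [h1.2.2.1]
      exact h2.1
  · -- one
    intro b b' v hv hv'
    rw [mem_union, mWT, mWP] at hv hv'
    rcases hv with ⟨e, he, rfl, rfl⟩ | ⟨e, he, rfl, rfl⟩
    · rcases hv' with ⟨e', he', rfl, h⟩ | ⟨e', he', rfl, h⟩
      · rw [hgi e' he' e he h]
      · have h1 := (hP e' he').2.1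
        rw [h, (hT e he).1] at h1
        exact absurd h1 (by simp)
    · rcases hv' with ⟨e', he', rfl, h⟩ | ⟨e', he', rfl, h⟩
      · have h1 := (hP e he).2.1
        rw [← h, (hT e' he').1] at h1
        exact absurd h1 (by simp)
      · rw [hPy e' he' e he h]
  · -- bal
    intro i b hb
    have hb' : b ∈ Sp' Q P2 i := hb
    have k1 : (qtr sd pt false i \ (us F2 b ∪ (WT b ∪ WP b))).card + (qq F2 sd pt i b).toNat =
        (qtr sd pt false i \ us F2 b).card := by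
      rw [← card_evs_col (hrT hI) i b hb']
      rw [← card_image_of_injOn (f := g) (s := (evs (Sp' Q P2) fun i b => qq F2 sd pt i b).filter
        fun e => e.1 = i ∧ e.2.1 = b) (fun e he e' he' h => by
          rw [Finset.mem_coe, mem_filter] at he he'
          exact hgi e he.1 e' he'.1 h)]
      rw [← card_union_of_disjoint]
      · congr 1
        ext v
        rw [mem_union, mem_sdiff, mem_sdiff, mem_union, mem_union, mWT, mWP, mem_us, mem_image,
          mem_qtr]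
        constructor
        · rintro (⟨h1, h2⟩ | ⟨e, he, rfl⟩)
          · exact ⟨h1, fun h => h2 (Or.inl h)⟩
          · rw [mem_filter] at he
            have h1 := hT e he.1
            refine ⟨⟨h1.1, by rw [h1.2.1]; exact he.2.1⟩, ?_⟩
            rw [← he.2.2]
            exact h1.2.2.2.1
        · rintro ⟨h1, h2⟩
          by_cases h3 : ∃ e ∈ eT F2 sd pt Q P2, e.2.1 = b ∧ g e = v
          · obtain ⟨e, he, h3, h4⟩ := h3
            refine Or.inr ⟨e, ?_, h4⟩
            rw [mem_filter]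
            refine ⟨he, ?_, h3⟩
            rw [← (hT e he).2.1, h4]
            exact h1.2
          · refine Or.inl ⟨h1, ?_⟩
            rintro (h | h | ⟨e, he, h4, h5⟩)
            · exact h2 h
            · exact h3 h
            · have h6 := (hP e he).2.1
              rw [h5, h1.1] at h6
              exact absurd h6 (by simp)
      · rw [disjoint_left]
        intro v hv hv'
        rw [mem_sdiff, mem_union, mem_union] at hv
        rw [mem_image] at hv'
        obtain ⟨e, he, h⟩ := hv'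
        rw [mem_filter] at he
        exact hv.2 (Or.inr (Or.inl ((mWT b v).2 ⟨e, he.1, he.2.2, h⟩)))
    have k2 : (qtr sd pt true i \ (us F2 b ∪ (WT b ∪ WP b))).card + (- qq F2 sd pt i b).toNat =
        (qtr sd pt true i \ us F2 b).card := by
      rw [← card_evs_col (hrP hI) i b hb']
      rw [← card_image_of_injOn (f := py) (s := (evs (Sp' Q P2) fun i b => - qq F2 sd pt i b).filter
        fun e => e.1 = i ∧ e.2.1 = b) (fun e he e' he' h => by
          rw [Finset.mem_coe, mem_filter] at he he'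
          exact hPy e he.1 e' he'.1 h)]
      rw [← card_union_of_disjoint]
      · congr 1
        ext v
        rw [mem_union, mem_sdiff, mem_sdiff, mem_union, mem_union, mWT, mWP, mem_us, mem_image,
          mem_qtr]
        constructor
        · rintro (⟨h1, h2⟩ | ⟨e, he, rfl⟩)
          · exact ⟨h1, fun h => h2 (Or.inl h)⟩
          · rw [mem_filter] at he
            have h1 := hP e he.1
            refine ⟨⟨h1.2.1, by rw [h1.2.2.1]; exact he.2.1⟩, ?_⟩
            rw [← he.2.2]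
            exact h1.2.2.2.2.1
        · rintro ⟨h1, h2⟩
          by_cases h3 : ∃ e ∈ eP F2 sd pt Q P2, e.2.1 = b ∧ py e = v
          · obtain ⟨e, he, h3, h4⟩ := h3
            refine Or.inr ⟨e, ?_, h4⟩
            rw [mem_filter]
            refine ⟨he, ?_, h3⟩
            rw [← (hP e he).2.2.1, h4]
            exact h1.2
          · refine Or.inl ⟨h1, ?_⟩
            rintro (h | ⟨e, he, h4, h5⟩ | h)
            · exact h2 h
            · have h6 := (hT e he).1
              rw [h5, h1.1] at h6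
              exact absurd h6 (by simp)
            · exact h3 h
      · rw [disjoint_left]
        intro v hv hv'
        rw [mem_sdiff, mem_union, mem_union] at hv
        rw [mem_image] at hv'
        obtain ⟨e, he, h⟩ := hv'
        rw [mem_filter] at he
        exact hv.2 (Or.inr (Or.inr ((mWP b v).2 ⟨e, he.1, he.2.2, h⟩)))
    have k3 : qq F2 sd pt i b = ((qtr sd pt false i \ us F2 b).card : ℤ) -
      ((qtr sd pt true i \ us F2 b).card : ℤ) := rfl
    show (qtr sd pt false i \ (us F2 b ∪ (WT b ∪ WP b))).card =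
      (qtr sd pt true i \ (us F2 b ∪ (WT b ∪ WP b))).card
    omega
  · -- T
    intro b v hv hsv
    rw [mem_union, mWT, mWP] at hv
    rcases hv with ⟨e, he, rfl, rfl⟩ | ⟨e, he, rfl, rfl⟩
    · have h1 := hT e he
      have h2 := (mem_evs (hrT hI) e).1 he
      refine ⟨h1.2.2.2.2.1, ?_, ?_⟩
      · rw [h1.2.1]
        exact lt_of_le_of_lt (Int.natCast_nonneg _) h2.2
      · intro w hw
        refine ⟨h1.2.2.2.2.2 w hw, ?_⟩
        rintro ⟨h3, h4⟩
        rw [mem_union, mWT, mWP] at h3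
        rcases h3 with ⟨e', he', h5, rfl⟩ | ⟨e', he', h5, rfl⟩
        · have hne : e ≠ e' := by
            rintro rfl
            exact hw.ne rfl
          exact hT' e he e' he' hne (Or.inr ⟨h5.symm, hw⟩)
        · rw [(hP e' he').2.1] at h4
          exact absurd h4 (by simp)
    · rw [(hP e he).2.1] at hsv
      exact absurd hsv (by simp)
  · -- c
    intro b
    have h1 : (WT b).card ≤ _ := card_image_le.trans (card_evs_color_le (hrT hI) b)
    have h2 : (WP b).card ≤ _ := card_image_le.trans (card_evs_color_le (hrP hI) b)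
    have h3 := card_union_le (WT b) (WP b)
    have h4 : ∀ i, (if b ∈ Sp' Q P2 i then (qq F2 sd pt i b).toNat else 0) +
        (if b ∈ Sp' Q P2 i then (- qq F2 sd pt i b).toNat else 0) ≤ 10 := by
      intro i
      by_cases hb : b ∈ Sp' Q P2 i
      · rw [if_pos hb, if_pos hb]
        have h5 := abs_le.1 (hI.q10 i b hb)
        omega
      · rw [if_neg hb, if_neg hb]
        omega
    have h5 := h4 false
    have h6 := h4 true
    show (WT b ∪ WP b).card ≤ 20
    omega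
  · -- N1F
    intro v w h
    rw [aN1] at h
    obtain ⟨e, he, ⟨rfl, rfl⟩ | ⟨rfl, rfl⟩⟩ := h
    · exact (hP e he).2.2.2.2.2.1
    · exact (hP e he).2.2.2.2.2.1.symm
  · -- N1m
    intro v
    refine dg_le_one fun a b ha hb => ?_
    rw [SimpleGraph.sup_adj] at ha hb
    have h0 : ∀ a b, N0.Adj v a → N1.Adj v b → a = b := by
      intro a b ha hb
      rw [aN1] at hb
      obtain ⟨e, he, ⟨h1, h2⟩ | ⟨h1, h2⟩⟩ := hb
      · rw [h1] at ha
        exact absurd ha ((hP e he).2.2.2.2.2.2.1 a)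
      · have h3 := hN0 v a ha
        rw [h2] at h3
        exact absurd h3 (hP e he).2.2.2.1
    rcases ha with ha | ha
    · rcases hb with hb | hb
      · exact dg_one hI.N0m ha hb
      · exact h0 a b ha hb
    · rcases hb with hb | hb
      · exact (h0 b a hb ha).symm
      · rw [aN1] at ha hb
        obtain ⟨e, he, ⟨h1, h2⟩ | ⟨h1, h2⟩⟩ := ha
        · obtain ⟨e', he', ⟨h3, h4⟩ | ⟨h3, h4⟩⟩ := hb
          · rw [h2, h4, hPx e he e' he' (by rw [← h1, ← h3])]
          · have h5 := (hP e he).1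
            rw [← h1, h4, (hP e' he').2.1] at h5
            exact absurd h5 (by simp)
        · obtain ⟨e', he', ⟨h3, h4⟩ | ⟨h3, h4⟩⟩ := hb
          · have h5 := (hP e' he').1
            rw [← h3, h2, (hP e he).2.1] at h5
            exact absurd h5 (by simp)
          · rw [h1, h3, hPy e he e' he' (by rw [← h2, ← h4])]
  · -- N1p
    intro b v hv hsv
    rw [mem_union, mWT, mWP] at hv
    rcases hv with ⟨e, he, rfl, rfl⟩ | ⟨e, he, rfl, rfl⟩
    · rw [(hT e he).1] at hsv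
      exact absurd hsv (by simp)
    · have h1 := hP e he
      refine ⟨px e, (aN1 _ _).2 ⟨e, he, Or.inr ⟨rfl, rfl⟩⟩, h1.1, ?_⟩
      rcases h1.2.2.2.2.2.2.2 with h2 | ⟨e', he', h2⟩
      · exact Or.inl h2
      · refine Or.inr ⟨e'.2.1, ?_⟩
        rw [mem_union, mWT]
        exact Or.inl ⟨e', he', rfl, h2.symm⟩

/-- the nonempty case -/
theorem main_nonempty [Nonempty V] (hI : M2I H Fr N0 Th d M0 C κ δ sd pt Q P2 F2 A c0 T1 Pf)
    (hd : 0 < (d : ℝ)) (hκ : 0 < κ) (hκ1 : κ ≤ 1 / 100) (hδ : 0 < δ)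
    (hδ1 : (24 + M0) * δ ≤ κ / 200) :
    ∃ (W2 : ℕ → Finset V) (N1 : SimpleGraph V),
        M2O Fr N0 N1 Th sd pt Q P2 F2 A c0 T1 Pf W2 := by
  have hδ2 : δ ≤ κ / 4800 := by
    have hM0 : (0 : ℝ) ≤ M0 := Nat.cast_nonneg _
    nlinarith
  choose Xs hXs1 hXs2 using fun i => exists_Xs hI i
  obtain ⟨φ, hφ1, hφ2, hφ3⟩ := exists_phi hI Xs (fun i x hx => (hXs1 i x hx).2.2.1) hXs2
  have hSA := card_SA hI Xs hXs2 φ hφ1 hφ3
  obtain ⟨yA, hy1, hy2⟩ := stageA hI hd hκ hκ1 hδ hδ2 Xs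
    (fun i x hx => ⟨(hXs1 i x hx).2.1, (hXs1 i x hx).2.2.1⟩) φ hφ1 hSA
  -- the colour of the mate
  have hmbx : ∀ e' : Ev, ∃ m : ℕ, (e' ∈ eT F2 sd pt Q P2 → m ∈ P2 ∪ Q false ∪ Q true) ∧
      ∀ e ∈ eP F2 sd pt Q P2, φ e = Sum.inr e' → m = e.2.1 := by
    intro e'
    by_cases h : ∃ e ∈ eP F2 sd pt Q P2, φ e = Sum.inr e'
    · obtain ⟨e, he, h⟩ := h
      refine ⟨e.2.1, fun _ => col_mem ((mem_evs (hrP hI) e).1 he).1, ?_⟩
      intro e1 he1 h1
      rw [hφ3 e he e1 he1 (h.trans h1.symm)]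
    · refine ⟨e'.2.1, fun he' => col_mem ((mem_evs (hrT hI) e').1 he').1, ?_⟩
      intro e1 he1 h1
      exact absurd ⟨e1, he1, h1⟩ h
  choose mb hmb1 hmb2 using hmbx
  obtain ⟨g, hg1, hg2⟩ := stageB hI hd hκ hκ1 hδ hδ1
    (((eP F2 sd pt Q P2).filter fun e => ∃ x, φ e = Sum.inl x).image yA)
    ((Nat.cast_le.2 card_image_le).trans hSA) mb hmb1
  have hN0 : ∀ v w, N0.Adj v w → v ∈ T1 ∪ Pf := by
    intro v w h
    rw [mem_union]
    rcases (hI.N0a v w h).2 with h | h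
    · exact Or.inr h.1
    · exact Or.inl h.2
  refine asm hI (fun e => Sum.elim (fun x => x) (fun e' => (g e').1) (φ e))
    (fun e => Sum.elim (fun _ => yA e) (fun e' => (g e').2) (φ e)) (fun e => (g e).1) ?_ ?_ ?_ ?_ ?_
  · intro e he
    have h := hg1 e he
    exact ⟨h.1, h.2.1, h.2.2.1, h.2.2.2.1, h.2.2.2.2.1, h.2.2.2.2.2.1⟩
  · intro e he e' he' hne h
    refine hg2 e he e' he' hne ?_
    rcases h with h | h
    · exact Or.inl h
    · exact Or.inr (Or.inr h)
  · intro e he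
    rcases hx : φ e with x | e'
    · have h1 := hXs1 _ x (hφ1 e he x hx)
      have h2 := hy1 e (mem_filter.2 ⟨he, x, hx⟩)
      exact ⟨h1.2.1, h2.1, h2.2.1, h2.2.2.1, h2.2.2.2.1, h2.2.2.2.2 x hx, h1.2.2.2, Or.inl h1.1⟩
    · obtain ⟨h1, h2⟩ := hφ2 e he e' hx
      obtain ⟨g1, g2, g3, g4, g5, g6, g7, g8, g9, g10, g11, g12⟩ := hg1 e' h1
      rw [hmb2 e' e he hx] at g10
      refine ⟨g1, g7, ?_, g9, g10, g12, fun w hw => g3 (hN0 _ w hw), Or.inr ⟨e', h1, rfl⟩⟩
      rw [← h2]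
      exact g8
  · intro e he e' he' h
    rcases hx : φ e with x | e1
    · rcases hx' : φ e' with x' | e1'
      · simp only [hx, hx', Sum.elim_inl] at h
        exact hφ3 e he e' he' (by rw [hx, hx', h])
      · simp only [hx, hx', Sum.elim_inl, Sum.elim_inr] at h
        have h1 := hXs1 _ x (hφ1 e he x hx)
        have h2 := (hg1 e1' (hφ2 e' he' e1' hx').1).2.2.1
        rw [← h, mem_union] at h2
        exact absurd (Or.inl h1.1) h2
    · rcases hx' : φ e' with x' | e1'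
      · simp only [hx, hx', Sum.elim_inl, Sum.elim_inr] at h
        have h1 := hXs1 _ x' (hφ1 e' he' x' hx')
        have h2 := (hg1 e1 (hφ2 e he e1 hx).1).2.2.1
        rw [h, mem_union] at h2
        exact absurd (Or.inl h1.1) h2
      · simp only [hx, hx', Sum.elim_inr] at h
        by_cases hne : e1 = e1'
        · exact hφ3 e he e' he' (by rw [hx, hx', hne])
        · exact absurd (Or.inl h) (hg2 e1 (hφ2 e he e1 hx).1 e1' (hφ2 e' he' e1' hx').1 hne)
  · intro e he e' he' h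
    rcases hx : φ e with x | e1
    · rcases hx' : φ e' with x' | e1'
      · simp only [hx, hx', Sum.elim_inl] at h
        by_contra hne
        exact hy2 e (mem_filter.2 ⟨he, x, hx⟩) e' (mem_filter.2 ⟨he', x', hx'⟩) hne h
      · simp only [hx, hx', Sum.elim_inl, Sum.elim_inr] at h
        have h2 := (hg1 e1' (hφ2 e' he' e1' hx').1).2.2.2.2.2.2.2.2.2.2.1
        rw [← h] at h2
        exact absurd (mem_image_of_mem _ (mem_filter.2 ⟨he, x, hx⟩)) h2
    · rcases hx' : φ e' with x' | e1'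
      · simp only [hx, hx', Sum.elim_inl, Sum.elim_inr] at h
        have h2 := (hg1 e1 (hφ2 e he e1 hx).1).2.2.2.2.2.2.2.2.2.2.1
        rw [h] at h2
        exact absurd (mem_image_of_mem _ (mem_filter.2 ⟨he', x', hx'⟩)) h2
      · simp only [hx, hx', Sum.elim_inr] at h
        by_cases hne : e1 = e1'
        · exact hφ3 e he e' he' (by rw [hx, hx', hne])
        · exact absurd (Or.inr (Or.inl h))
            (hg2 e1 (hφ2 e he e1 hx).1 e1' (hφ2 e' he' e1' hx').1 hne)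

end

/-- Block MIS2 -/
theorem stmt_MIS2 : Stmt_MIS2.{u} := by
  intro C κ M0 hC hκ hκ1
  have hM0 : (0 : ℝ) ≤ M0 := Nat.cast_nonneg _
  refine ⟨κ / (200 * (24 + M0)), 1, by positivity, ?_⟩
  intro V _ H Fr N0 Th d sd pt Q P2 F2 A c0 T1 Pf hd hI
  have hd' : 0 < (d : ℝ) := by exact_mod_cast hd
  rcases isEmpty_or_nonempty V with hV | hV
  · refine ⟨fun _ => ∅, ⊥, ⟨?_, ?_, ?_, ?_, ?_, ?_, ?_, ?_⟩⟩
    · exact fun b v _ => hV.elim v
    · exact fun b b' v _ _ => hV.elim v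
    · intro i b _
      rw [Finset.eq_empty_of_isEmpty (qtr sd pt false i \ _),
        Finset.eq_empty_of_isEmpty (qtr sd pt true i \ _)]
    · exact fun b v _ _ => hV.elim v
    · intro b
      simp
    · exact fun v w _ => hV.elim v
    · exact fun v => hV.elim v
    · exact fun b v _ _ => hV.elim v
  · refine main_nonempty hI hd' hκ hκ1 (by positivity) ?_
    have : (24 + (M0 : ℝ)) * (κ / (200 * (24 + M0))) = κ / 200 := by
      field_simp
    exact this.le

end Pool.Agent.Work.MP_db9399_da_helper49
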